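import Mathlib
import Pool.Agent.H11.INS.Defs
import Pool.Agent.H11.INS.Sphere

/-!
# A regular polynomial sequence with Cantor type real Julia set whose recurrence coefficients are
not asymptotically almost periodic (MP_cc1b6d_an, Q1, negative answer)
-/

set_option autoImplicit false

namespace Pool.Agent.Results.MP_cc1b6d_an.NotAlmostPeriodic

open Polynomial MeasureTheory Pool.Agent.H11.INS

/-- For some regular polynomial sequence whose Julia set is a Cantor type subset `K` of the real
line, the recurrence coefficients `b_n` of the equilibrium measure of `K` are not asymptotically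
almost periodic. -/
theorem result : ∃ (f : ℕ → ℂ[X]) (K : Set ℝ) (m : Measure ℝ) (a b : ℕ → ℝ),
    Regular f ∧ julia f = (fun x : ℝ => ((x : ℂ) : OnePoint ℂ)) '' K ∧ IsCantor K ∧
    IsEquilibrium (Complex.ofReal '' K) (m.map Complex.ofReal) ∧
    IsRecurrence m a b ∧ ¬ AsympAlmostPeriodic b :=
  ⟨fI, Pool.Agent.H12.GJ.K0, Pool.Agent.H15.GJ.m0, aI, bI, regular_fI, julia_eq,
    ⟨Pool.Agent.H11.INS.K0_nonempty, Pool.Agent.H12.GJ.K0_compact, Pool.Agent.H11.INS.K0_perfect,
      Pool.Agent.H11.INS.K0_td⟩, equilibrium_I, recurrence_I, not_aap_I⟩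

end Pool.Agent.Results.MP_cc1b6d_an.NotAlmostPeriodic
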